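import Pool.Agent.helper85.AQ.SpecL
import Pool.Agent.helper39.GJ.SpecL

/-!
Row LTH of project A+ (MP_3703a7_ag), owner helper85: the class of the curve forces similitudes.
-/

set_option autoImplicit false

namespace Pool.Agent.AQ

open Pool.Agent.GJ
open scoped TensorProduct

noncomputable section

/-- Linear maps respect the degree. -/
theorem LTH_mem {Ω V W : Type} [Field Ω] [AddCommGroup V] [Module Ω V] [AddCommGroup W] [Module Ω W] (j : V →ₗ[Ω] W) (n : ℕ)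
    (x : ExteriorAlgebra Ω V) (hx : x ∈ (⋀[Ω]^n V : Submodule Ω (ExteriorAlgebra Ω V))) :
    ExteriorAlgebra.map j x ∈ (⋀[Ω]^n W : Submodule Ω (ExteriorAlgebra Ω W)) := by
  have h1 : (LinearMap.range (ExteriorAlgebra.ι Ω : V →ₗ[Ω] ExteriorAlgebra Ω V) ^ n).map
      (ExteriorAlgebra.map j).toLinearMap ≤ LinearMap.range (ExteriorAlgebra.ι Ω : W →ₗ[Ω] ExteriorAlgebra Ω W) ^ n := by
    rw [Submodule.map_pow]
    have h2 : (LinearMap.range (ExteriorAlgebra.ι Ω : V →ₗ[Ω] ExteriorAlgebra Ω V)).map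
        (ExteriorAlgebra.map j).toLinearMap ≤ LinearMap.range (ExteriorAlgebra.ι Ω : W →ₗ[Ω] ExteriorAlgebra Ω W) := by
      rintro _ ⟨_, ⟨v, rfl⟩, rfl⟩
      exact ⟨j v, (ExteriorAlgebra.map_apply_ι j v).symm⟩
    exact pow_le_pow_left' h2 n
  exact h1 ⟨x, hx, rfl⟩

theorem LTH (hL10 : GJ.L10_stmt) : LTH_stmt := by
  classical
  intro Ω H _ k V _ _ e d0 ρ i0 E θ hθ hE hH he hd A hSc
  obtain ⟨c0, -⟩ : ∃ c0 : Fin (e i0), (c0 : ℕ) = 0 := ⟨⟨0, he⟩, rfl⟩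
  obtain ⟨j, hj⟩ : ∃ j : V i0 →ₗ[Ω] (∀ i, Fin (e i) → V i),
      j = LinearMap.single Ω (fun i => Fin (e i) → V i) i0 ∘ₗ LinearMap.single Ω (fun _ : Fin (e i0) => V i0) c0 := ⟨_, rfl⟩
  obtain ⟨π, hπ⟩ : ∃ π : (∀ i, Fin (e i) → V i) →ₗ[Ω] V i0,
      π = (LinearMap.proj c0 : (Fin (e i0) → V i0) →ₗ[Ω] V i0) ∘ₗ
        (LinearMap.proj i0 : (∀ i, Fin (e i) → V i) →ₗ[Ω] (Fin (e i0) → V i0)) := ⟨_, rfl⟩
  have hπj : π ∘ₗ j = LinearMap.id := by
    ext x
    rw [hπ, hj]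
    simp
  have hcomm : ∀ B : ∀ i, V i →ₗ[Ω] V i, j ∘ₗ B i0 = dia e B ∘ₗ j := by
    intro B
    ext x i c
    rw [hj]
    simp only [dia, LinearMap.comp_apply, LinearMap.pi_apply, LinearMap.proj_apply, LinearMap.single_apply]
    by_cases hi : i = i0
    · subst hi
      rw [Pi.single_eq_same, Pi.single_eq_same]
      by_cases hc : c = c0
      · subst hc
        rw [Pi.single_eq_same, Pi.single_eq_same]
      · rw [Pi.single_eq_of_ne hc, Pi.single_eq_of_ne hc, map_zero]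
    · rw [Pi.single_eq_of_ne hi, Pi.single_eq_of_ne hi]
      simp
  have hmap : ∀ B : ∀ i, V i →ₗ[Ω] V i, ExteriorAlgebra.map (dia e B) (ExteriorAlgebra.map j θ) =
      ExteriorAlgebra.map j (ExteriorAlgebra.map (B i0) θ) := by
    intro B
    have h1 : (ExteriorAlgebra.map (dia e B)).comp (ExteriorAlgebra.map j) =
        (ExteriorAlgebra.map j).comp (ExteriorAlgebra.map (B i0)) := by
      rw [ExteriorAlgebra.map_comp_map, ExteriorAlgebra.map_comp_map, hcomm]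
    exact congrArg (fun f : ExteriorAlgebra Ω (V i0) →ₐ[Ω] ExteriorAlgebra Ω (∀ i, Fin (e i) → V i) => f θ) h1
  choose κ hκ using hH
  obtain ⟨c, hc⟩ := hSc 2 hd κ
  have h2 : dX (dia e A) (ExteriorAlgebra.map j θ) = c • ExteriorAlgebra.map j θ := by
    refine hc _ (LTH_mem j 2 θ hθ) fun h => ?_
    rw [hmap, hκ, map_smul]
  obtain ⟨-, -, -, -, -, -, h10⟩ := hL10 Ω (V i0)
  have h3 := h10 (∀ i, Fin (e i) → V i) j (A i0) (dia e A) (hcomm A) θ
  rw [h2, ← map_smul] at h3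
  have hinj : Function.LeftInverse (ExteriorAlgebra.map π) (ExteriorAlgebra.map j) := by
    intro x
    have h4 : (ExteriorAlgebra.map π).comp (ExteriorAlgebra.map j) = AlgHom.id Ω _ := by
      rw [ExteriorAlgebra.map_comp_map, hπj, ExteriorAlgebra.map_id]
    exact congrArg (fun f : ExteriorAlgebra Ω (V i0) →ₐ[Ω] ExteriorAlgebra Ω (V i0) => f x) h4
  exact ⟨c, hE (A i0) c (hinj.injective h3)⟩

end

end Pool.Agent.AQ
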